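import Pool.Agent.Lib.helper16.Indep

set_option autoImplicit false
open Set Filter Topology MeasureTheory
open scoped FourierTransform Real

namespace Pool.Agent.Results.MP_981724_an.NoPlane

lemma taylor (f : ℕ → ℝ → ℝ) (hd : ∀ n t, HasDerivAt (f n) (f (n + 1) t) t) (M : ℝ)
    (hM : ∀ n t, |f n t| ≤ M) (p : ℝ) (k : ℕ) : ∀ (n : ℕ) (r : ℝ),
    |f n (p + r) - ∑ j ∈ Finset.range k, f (n + j) p / (j.factorial : ℝ) * r ^ j| ≤ M * |r| ^ k := by
  have hM0 : 0 ≤ M := le_trans (abs_nonneg _) (hM 0 0)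
  induction k with
  | zero => intro n r; simpa using hM n (p + r)
  | succ k ih =>
    intro n r
    have hder : ∀ s, HasDerivAt
        (fun s => f n (p + s) - ∑ j ∈ Finset.range (k + 1), f (n + j) p / (j.factorial : ℝ) * s ^ j)
        (f (n + 1) (p + s) - ∑ j ∈ Finset.range k, f (n + 1 + j) p / (j.factorial : ℝ) * s ^ j) s := by
      intro s
      refine HasDerivAt.sub ((hd n (p + s)).comp_const_add p s) ?_
      simp only [Finset.sum_range_succ', pow_zero]
      apply HasDerivAt.add_const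
      apply HasDerivAt.fun_sum
      intro j _
      refine HasDerivAt.congr_deriv ((hasDerivAt_pow (j + 1) s).const_mul _) ?_
      rw [Nat.factorial_succ, show n + (j + 1) = n + 1 + j by ring]
      push_cast
      have : (j.factorial : ℝ) ≠ 0 := by positivity
      field_simp
    have := (convex_closedBall (0 : ℝ) |r|).norm_image_sub_le_of_norm_hasDerivWithin_le
      (C := M * |r| ^ k) (x := 0) (y := r) (fun s _ => (hder s).hasDerivWithinAt)
      (fun s hs => le_trans (ih (n + 1) s) (by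
        have : |s| ≤ |r| := by simpa using hs
        gcongr)) (by simp) (by simp)
    simp only [Finset.sum_range_succ', add_zero, sub_zero, Real.norm_eq_abs] at this ⊢
    simpa [pow_succ, mul_assoc] using this

lemma analytic (f : ℕ → ℝ → ℝ) (hd : ∀ n t, HasDerivAt (f n) (f (n + 1) t) t) (M : ℝ)
    (hM : ∀ n t, |f n t| ≤ M) (n : ℕ) : AnalyticOnNhd ℝ (f n) univ := by
  intro p _
  have hB : ∀ j : ℕ, |f (n + j) p / (j.factorial : ℝ)| ≤ M := by
    intro j
    have h1 : (1 : ℝ) ≤ j.factorial := by exact_mod_cast j.factorial_pos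
    rw [abs_div, abs_of_pos (by positivity : (0 : ℝ) < j.factorial)]
    exact le_trans (div_le_self (abs_nonneg _) h1) (hM _ _)
  have h1 := Pool.Agent.Lib.helper16.Indep.ps_analytic _ M hB 0 (by simp)
  have h2 : AnalyticAt ℝ (fun t => Pool.Agent.Lib.helper16.Indep.ps
      (fun j : ℕ => f (n + j) p / (j.factorial : ℝ)) (t - p)) p :=
    AnalyticAt.comp_of_eq h1 (analyticAt_id.sub analyticAt_const) (by simp)
  refine h2.congr ?_
  filter_upwards [Metric.ball_mem_nhds p one_pos] with t ht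
  have ht1 : |t - p| < 1 := by simpa [Real.dist_eq] using ht
  have l1 := (Pool.Agent.Lib.helper16.Indep.ps_summable _ M hB _ ht1).hasSum.tendsto_sum_nat
  have l2 : Tendsto (fun k => ∑ j ∈ Finset.range k, f (n + j) p / (j.factorial : ℝ) * (t - p) ^ j)
      atTop (𝓝 (f n t)) := by
    rw [tendsto_iff_norm_sub_tendsto_zero]
    have := (tendsto_pow_atTop_nhds_zero_of_lt_one (abs_nonneg _) ht1).const_mul M
    rw [mul_zero] at this
    refine squeeze_zero (fun k => norm_nonneg _) (fun k => ?_) this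
    have := taylor f hd M hM p k n (t - p)
    rwa [add_sub_cancel, abs_sub_comm] at this
  exact tendsto_nhds_unique l1 l2

abbrev Y : Type := BoundedContinuousFunction (ℕ × ℝ) ℝ

def X : Submodule ℝ Y where
  carrier := {x | (∀ n t, HasDerivAt (fun s => x (n, s)) (x (n + 1, t)) t) ∧
    (∀ n, Tendsto (fun s => x (n, s)) (cocompact ℝ) (𝓝 0)) ∧
    ∀ ε > 0, ∃ N, ∀ n ≥ N, ∀ t, |x (n, t)| ≤ ε}
  zero_mem' := ⟨fun n t => by simpa using hasDerivAt_const t (0 : ℝ),
    fun n => by simp, fun ε hε => ⟨0, fun n _ t => by simpa using hε.le⟩⟩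
  add_mem' := by
    rintro x y ⟨a1, a2, a3⟩ ⟨b1, b2, b3⟩
    refine ⟨fun n t => (a1 n t).add (b1 n t), fun n => by simpa using (a2 n).add (b2 n),
      fun ε hε => ?_⟩
    obtain ⟨N, hN⟩ := a3 (ε / 2) (by positivity)
    obtain ⟨K, hK⟩ := b3 (ε / 2) (by positivity)
    refine ⟨max N K, fun n hn t => le_trans (abs_add_le _ _) ?_⟩
    have := hN n (le_trans (le_max_left _ _) hn) t
    have := hK n (le_trans (le_max_right _ _) hn) t
    linarith
  smul_mem' := by
    rintro c x ⟨a1, a2, a3⟩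
    refine ⟨fun n t => (a1 n t).const_mul c, fun n => by simpa using (a2 n).const_mul c,
      fun ε hε => ?_⟩
    obtain ⟨N, hN⟩ := a3 (ε / (|c| + 1)) (by positivity)
    refine ⟨N, fun n hn t => ?_⟩
    have h1 := hN n hn t
    rw [le_div_iff₀ (by positivity)] at h1
    have : |(c • x) (n, t)| = |c| * |x (n, t)| := by simp [abs_mul]
    rw [this]
    nlinarith [abs_nonneg (x (n, t))]

lemma closedX : IsClosed (X : Set Y) := by
  apply IsSeqClosed.isClosed
  intro u x hu hx
  have key : ∀ ε > 0, ∀ᶠ j in atTop, ∀ q, |x q - u j q| < ε := by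
    intro ε hε
    filter_upwards [Metric.tendsto_nhds.mp hx ε hε] with j hj q
    rw [dist_comm] at hj
    exact lt_of_le_of_lt (BoundedContinuousFunction.dist_coe_le_dist (f := x) (g := u j) q) hj
  refine ⟨fun n t => ?_, fun n => ?_, fun ε hε => ?_⟩
  · refine hasDerivAt_of_tendstoUniformly (l := atTop) (f := fun j s => u j (n, s))
      (f' := fun j s => u j (n + 1, s)) (g' := fun s => x (n + 1, s)) ?_
      (Eventually.of_forall fun j s => (hu j).1 n s) (fun s => ?_) t
    · rw [Metric.tendstoUniformly_iff]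
      intro ε hε
      filter_upwards [key ε hε] with j hj s
      exact hj _
    · rw [Metric.tendsto_nhds]
      intro ε hε
      filter_upwards [key ε hε] with j hj
      rw [dist_comm]
      exact hj _
  · rw [Metric.tendsto_nhds]
    intro ε hε
    obtain ⟨j, hj⟩ := (key (ε / 2) (by positivity)).exists
    filter_upwards [Metric.tendsto_nhds.mp ((hu j).2.1 n) (ε / 2) (by positivity)] with s hs
    have := hj (n, s)
    rw [Real.dist_eq, sub_zero] at hs ⊢
    rw [abs_lt] at *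
    constructor <;> linarith [hs.1, hs.2, this.1, this.2]
  · obtain ⟨j, hj⟩ := (key (ε / 2) (by positivity)).exists
    obtain ⟨N, hN⟩ := (hu j).2.2 (ε / 2) (by positivity)
    refine ⟨N, fun n hn t => ?_⟩
    have h1 := abs_lt.mp (hj (n, t))
    have h2 := abs_le.mp (hN n hn t)
    rw [abs_le]
    constructor <;> linarith [h1.1, h1.2, h2.1, h2.2]

def E : Type := X

noncomputable instance : NormedAddCommGroup E := inferInstanceAs (NormedAddCommGroup X)
noncomputable instance : NormedSpace ℝ E := inferInstanceAs (NormedSpace ℝ X)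
instance : CompleteSpace E := closedX.completeSpace_coe

lemma bnd (x : E) (q : ℕ × ℝ) : |x.1 q| ≤ ‖x‖ := x.1.norm_coe_le_norm q

def sh : C(ℕ × ℝ, ℕ × ℝ) := ⟨fun q => (q.1 + 1, q.2), by fun_prop⟩
def tr (r : ℝ) : C(ℕ × ℝ, ℕ × ℝ) := ⟨fun q => (q.1, q.2 + r), by fun_prop⟩

noncomputable def T0 (x : E) : E :=
  ⟨x.1.compContinuous sh, fun n t => x.2.1 (n + 1) t, fun n => x.2.2.1 (n + 1),
      fun ε hε => by
        obtain ⟨N, hN⟩ := x.2.2.2 ε hε
        exact ⟨N, fun n hn t => hN (n + 1) (by omega) t⟩⟩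

noncomputable def T1 : E →ₗ[ℝ] E where
  toFun := T0
  map_add' _ _ := rfl
  map_smul' _ _ := rfl

noncomputable def T : E →L[ℝ] E := T1.mkContinuous 1 fun x => by
  rw [one_mul]
  exact (BoundedContinuousFunction.norm_le (norm_nonneg x)).mpr fun q => bnd x _

lemma T_apply (x : E) (n : ℕ) (t : ℝ) : (T x).1 (n, t) = x.1 (n + 1, t) := rfl

noncomputable def U (r : ℝ) (x : E) : E :=
  ⟨x.1.compContinuous (tr r), fun n t => (x.2.1 n (t + r)).comp_add_const t r,
    fun n => (x.2.2.1 n).comp (Homeomorph.addRight r).toCocompactMap.cocompact_tendsto',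
    fun ε hε => by
      obtain ⟨N, hN⟩ := x.2.2.2 ε hε
      exact ⟨N, fun n hn t => hN n hn (t + r)⟩⟩

lemma U_le (r : ℝ) (x : E) : ‖U r x‖ ≤ ‖x‖ :=
  (BoundedContinuousFunction.norm_le (norm_nonneg x)).mpr fun _ => bnd x _

lemma U_taylor (r : ℝ) (x : E) : ‖U r x - (x + r • T x)‖ ≤ ‖x‖ * |r| ^ 2 := by
  refine (BoundedContinuousFunction.norm_le (by positivity)).mpr fun q => ?_
  have := taylor (fun n s => x.1 (n, s)) x.2.1 ‖x‖ (fun n t => bnd x _) q.2 2 q.1 r
  have e : (U r x - (x + r • T x)).1 q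
      = x.1 (q.1, q.2 + r) - (x.1 (q.1, q.2) + r * x.1 (q.1 + 1, q.2)) := rfl
  show ‖(U r x - (x + r • T x)).1 q‖ ≤ _
  rw [e]
  simpa [Finset.sum_range_succ, mul_comm] using this

lemma skew (x : E) (φ : StrongDual ℝ E) (hx : ‖x‖ = 1) (hφ : ‖φ‖ = 1) (h : φ x = 1) :
    φ (T x) = 0 := by
  have key : ∀ r : ℝ, r * φ (T x) ≤ r ^ 2 := by
    intro r
    have h1 := φ.le_opNorm (U r x)
    have h2 := φ.le_opNorm (U r x - (x + r • T x))
    have h3 := U_le r x
    have h4 := U_taylor r x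
    rw [map_sub, map_add, map_smul, h, smul_eq_mul] at h2
    rw [hφ, one_mul, Real.norm_eq_abs] at h1 h2
    rw [hx] at h3 h4
    rw [sq_abs] at h4
    have := abs_le.mp h1
    have := abs_le.mp h2
    linarith
  have := key (φ (T x) / 2)
  nlinarith

noncomputable def hh (n : ℕ) : ℝ → ℂ :=
  (Icc (0 : ℝ) (1 / 16)).indicator fun v => (-2 * π * Complex.I * v) ^ n

lemma hh_int (n : ℕ) : Integrable (hh n) :=
  (integrable_indicator_iff measurableSet_Icc).mpr
    (Continuous.integrableOn_Icc (by fun_prop))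

lemma hh_succ (n : ℕ) : (fun v : ℝ => (-2 * π * Complex.I * v) • hh n v) = hh (n + 1) := by
  funext v
  unfold hh
  by_cases h : v ∈ Icc (0 : ℝ) (1 / 16)
  · simp only [indicator_of_mem h, smul_eq_mul]; ring
  · simp only [indicator_of_notMem h, smul_zero]

lemma hh_deriv (n : ℕ) (t : ℝ) : HasDerivAt (𝓕 (hh n)) (𝓕 (hh (n + 1)) t) t := by
  rw [← hh_succ]
  refine Real.hasDerivAt_fourier (hh_int n) ?_ t
  have : (fun v : ℝ => v • hh n v) = (Icc (0 : ℝ) (1 / 16)).indicator
      fun v : ℝ => v • (-2 * π * Complex.I * v) ^ n := by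
    funext v
    unfold hh
    by_cases h : v ∈ Icc (0 : ℝ) (1 / 16)
    · simp only [indicator_of_mem h]
    · simp only [indicator_of_notMem h, smul_zero]
  rw [this]
  exact (integrable_indicator_iff measurableSet_Icc).mpr (Continuous.integrableOn_Icc (by fun_prop))

lemma hh_bound (n : ℕ) (t : ℝ) : ‖𝓕 (hh n) t‖ ≤ (1 / 2) ^ n := by
  rw [Real.fourier_real_eq]
  have h1 : ∀ v : ℝ, ‖Real.fourierChar (-(v * t)) • hh n v‖ ≤
      (Icc (0 : ℝ) (1 / 16)).indicator (fun _ => ((1 : ℝ) / 2) ^ n) v := by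
    intro v
    rw [Circle.norm_smul]
    unfold hh
    by_cases h : v ∈ Icc (0 : ℝ) (1 / 16)
    · simp only [indicator_of_mem h, norm_pow]
      gcongr
      have h2 := Real.pi_le_four
      have h3 := Real.pi_pos
      simp only [norm_mul, norm_neg, Complex.norm_ofNat, Complex.norm_real, Complex.norm_I,
        Real.norm_eq_abs, abs_of_pos h3, abs_of_nonneg h.1]
      nlinarith [h.1, h.2]
    · simp only [indicator_of_notMem h, norm_zero, le_refl]
  refine le_trans (norm_integral_le_of_norm_le ((integrable_indicator_iff measurableSet_Icc).mpr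
    (Continuous.integrableOn_Icc continuous_const)) (Eventually.of_forall h1)) ?_
  rw [integral_indicator measurableSet_Icc]
  have : (0 : ℝ) < (1 / 2) ^ n := by positivity
  simp
  norm_num

lemma hh_zero : 𝓕 (hh 0) 0 = 1 / 16 := by
  rw [Real.fourier_real_eq]
  simp [hh, integral_indicator measurableSet_Icc]

noncomputable def x0 : E :=
  ⟨BoundedContinuousFunction.ofNormedAddCommGroup (fun q : ℕ × ℝ => (𝓕 (hh q.1) q.2).re)
    (by
      rw [continuous_prod_of_discrete_left]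
      intro n
      exact Complex.continuous_re.comp
        (continuous_iff_continuousAt.mpr fun t => (hh_deriv n t).continuousAt)) 1
    (fun q => le_trans (Complex.abs_re_le_norm _) (le_trans (hh_bound _ _)
      (pow_le_one₀ (by norm_num) (by norm_num)))),
  fun n t => Complex.reCLM.hasFDerivAt.comp_hasDerivAt t (hh_deriv n t),
  fun n => by
    have := (Complex.continuous_re.tendsto 0).comp (Real.zero_at_infty_fourier (hh n))
    simpa [Function.comp_def] using this,
  fun ε hε => by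
    obtain ⟨N, hN⟩ := exists_pow_lt_of_lt_one hε (by norm_num : (1 : ℝ) / 2 < 1)
    refine ⟨N, fun n hn t => le_trans (Complex.abs_re_le_norm _) (le_trans (hh_bound _ _) ?_)⟩
    exact le_trans (pow_le_pow_of_le_one (by norm_num) (by norm_num) hn) hN.le⟩

lemma T_ne : T ≠ 0 := by
  intro h
  have h1 : ∀ t, x0.1 (1, t) = 0 := fun t => by
    have := T_apply x0 0 t
    rw [h] at this
    exact this.symm
  have h2 : ∀ t, x0.1 (0, t) = x0.1 (0, 0) := fun t =>
    is_const_of_deriv_eq_zero (f := fun s => x0.1 (0, s))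
      (fun s => (x0.2.1 0 s).differentiableAt) (fun s => by rw [(x0.2.1 0 s).deriv]; exact h1 s) t 0
  have h3 := x0.2.2.1 0
  simp only [h2] at h3
  have h4 := tendsto_nhds_unique tendsto_const_nhds h3
  have h5 : x0.1 (0, 0) = (𝓕 (hh 0) 0).re := rfl
  rw [h5, hh_zero] at h4
  norm_num at h4

lemma attain (x : E) (hx : 0 < ‖x‖) : ∃ q, |x.1 q| = ‖x‖ := by
  by_contra hcon
  have hlt : ∀ q, |x.1 q| < ‖x‖ := fun q => lt_of_le_of_ne (bnd x q) fun h => hcon ⟨q, h⟩
  have h1 : ∀ n, ∃ c < ‖x‖, ∀ t, |x.1 (n, t)| ≤ c := by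
    intro n
    by_cases h0 : ∀ t, x.1 (n, t) = 0
    · exact ⟨0, hx, fun t => by simp [h0]⟩
    · push Not at h0
      obtain ⟨t0, ht0⟩ := h0
      have hc : Continuous fun t => |x.1 (n, t)| := by fun_prop
      obtain ⟨t1, ht1⟩ := hc.exists_forall_ge' t0 (by
        filter_upwards [Metric.tendsto_nhds.mp (x.2.2.1 n) _ (abs_pos.mpr ht0)] with s hs
        rw [Real.dist_eq, sub_zero] at hs
        exact hs.le)
      exact ⟨_, hlt (n, t1), ht1⟩
  choose c hc1 hc2 using h1
  obtain ⟨N, hN⟩ := x.2.2.2 (‖x‖ / 2) (by positivity)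
  obtain ⟨m, -, hm⟩ := Finset.exists_max_image (Finset.range (N + 1)) c ⟨0, by simp⟩
  have : ‖x‖ ≤ max (c m) (‖x‖ / 2) := by
    refine (BoundedContinuousFunction.norm_le (le_max_of_le_right (by positivity))).mpr fun q => ?_
    by_cases hq : N ≤ q.1
    · exact le_max_of_le_right (hN q.1 hq q.2)
    · exact le_max_of_le_left (le_trans (hc2 q.1 q.2) (hm q.1 (by simp; omega)))
  have h2 : max (c m) (‖x‖ / 2) < ‖x‖ := max_lt (hc1 m) (by linarith)
  linarith

lemma fin_level (f g : E) (n : ℕ) : {t | f.1 (n, t) ^ 2 + g.1 (n, t) ^ 2 = 1}.Finite := by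
  by_contra hinf
  have lim : Tendsto (fun t => f.1 (n, t) ^ 2 + g.1 (n, t) ^ 2) (cocompact ℝ) (𝓝 0) := by
    simpa using ((f.2.2.1 n).pow 2).add ((g.2.2.1 n).pow 2)
  obtain ⟨K, hK, hK2⟩ := mem_cocompact.mp (lim.eventually (gt_mem_nhds one_pos))
  obtain ⟨p, -, hp⟩ := Set.Infinite.exists_accPt_of_subset_isCompact hinf hK (fun t ht => by
    by_contra h
    have h1 : f.1 (n, t) ^ 2 + g.1 (n, t) ^ 2 < 1 := hK2 h
    have h2 : f.1 (n, t) ^ 2 + g.1 (n, t) ^ 2 = 1 := ht
    linarith)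
  have a1 := analytic (fun n s => f.1 (n, s)) f.2.1 ‖f‖ (fun n t => bnd f _) n
  have a2 := analytic (fun n s => g.1 (n, s)) g.2.1 ‖g‖ (fun n t => bnd g _) n
  have := AnalyticOnNhd.eq_of_frequently_eq ((a1.pow 2).add (a2.pow 2))
    (analyticOnNhd_const (v := (1 : ℝ))) (z₀ := p) (by
      rw [accPt_iff_frequently_nhdsNE] at hp
      exact hp)
  have e : (fun t => f.1 (n, t) ^ 2 + g.1 (n, t) ^ 2) = fun _ => (1 : ℝ) := this
  rw [e] at lim
  exact one_ne_zero (tendsto_nhds_unique tendsto_const_nhds lim)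

theorem result : ∃ (F : Type) (_ : NormedAddCommGroup F) (_ : NormedSpace ℝ F) (_ : CompleteSpace F)
    (S : F →L[ℝ] F), S ≠ 0 ∧
      (∀ (x : F) (φ : StrongDual ℝ F), ‖x‖ = 1 → ‖φ‖ = 1 → φ x = 1 → φ (S x) = 0) ∧
      IsEmpty (EuclideanSpace ℝ (Fin 2) →ₗᵢ[ℝ] F) := by
  refine ⟨E, inferInstance, inferInstance, inferInstance, T, T_ne, skew, ⟨fun e => ?_⟩⟩
  set f := e (EuclideanSpace.single 0 1)
  set g := e (EuclideanSpace.single 1 1)
  have hn : ∀ a b : ℝ, ‖a • f + b • g‖ ^ 2 = a ^ 2 + b ^ 2 := by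
    intro a b
    rw [← map_smul, ← map_smul, ← map_add, e.norm_map, EuclideanSpace.real_norm_sq_eq]
    simp [Fin.sum_univ_two]
  have hle : ∀ q, f.1 q ^ 2 + g.1 q ^ 2 ≤ 1 := by
    intro q
    have h1 := bnd (f.1 q • f + g.1 q • g) q
    have h2 : (f.1 q • f + g.1 q • g).1 q = f.1 q ^ 2 + g.1 q ^ 2 := by
      rw [sq, sq]; rfl
    rw [h2, abs_of_nonneg (by positivity)] at h1
    have h3 := hn (f.1 q) (g.1 q)
    nlinarith [norm_nonneg (f.1 q • f + g.1 q • g)]
  have hsurj : ∀ s : ℝ, ∃ q : ℕ × ℝ, f.1 q ^ 2 + g.1 q ^ 2 = 1 ∧ g.1 q / f.1 q = s := by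
    intro s
    have h3 := hn 1 s
    obtain ⟨q, hq⟩ := attain ((1 : ℝ) • f + s • g) (by
      rcases eq_or_lt_of_le (norm_nonneg ((1 : ℝ) • f + s • g)) with h | h
      · rw [← h] at h3; nlinarith
      · exact h)
    have h2 : ((1 : ℝ) • f + s • g).1 q = f.1 q + s * g.1 q := by rw [one_smul]; rfl
    rw [← hq, sq_abs, h2] at h3
    have h4 := hle q
    have h5 : (g.1 q - s * f.1 q) ^ 2 ≤ 0 := by nlinarith [sq_nonneg s]
    have h6 : g.1 q = s * f.1 q := by nlinarith
    have h7 : f.1 q ^ 2 + g.1 q ^ 2 = 1 := by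
      rw [h6] at h3 ⊢
      have : (1 + s ^ 2) * (f.1 q ^ 2 + (s * f.1 q) ^ 2 - 1) = 0 := by linarith
      rcases mul_eq_zero.mp this with h | h
      · nlinarith [sq_nonneg s]
      · linarith
    refine ⟨q, h7, ?_⟩
    have : f.1 q ≠ 0 := by
      intro h
      rw [h6, h] at h7
      norm_num at h7
    rw [h6]
    field_simp
  have hc : (⋃ n : ℕ, (fun t => g.1 (n, t) / f.1 (n, t)) ''
      {t | f.1 (n, t) ^ 2 + g.1 (n, t) ^ 2 = 1}).Countable :=
    countable_iUnion fun n => ((fin_level f g n).image _).countable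
  refine Cardinal.not_countable_real (hc.mono fun s _ => ?_)
  obtain ⟨q, h1, h2⟩ := hsurj s
  exact mem_iUnion.mpr ⟨q.1, q.2, h1, h2⟩

end Pool.Agent.Results.MP_981724_an.NoPlane
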